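import Pool.Agent.Lib.MP_9fd99d_al.Key
import Pool.Agent.Lib.MP_9fd99d_al.Sufficient

/-!
MP_9fd99d_al, full answer: a variety of groups has property (RF) if and only if it is the variety
of all groups or it is generated by a finite group all of whose Sylow subgroups are abelian.
-/

namespace Pool.Agent.Results.MP_9fd99d_al.Classification

open Pool.Agent.Lib.MP_9fd99d_al

universe u

theorem result (W : Set (FreeGroup ℕ)) :
    (∀ (G : Type u) [Group G],
        Group.ResiduallyFinite G → Group.ResiduallyFinite (G ⧸ verbal W G)) ↔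
      ((∀ (G : Type u) [Group G], Satisfies W G) ∨
        ∃ (A : Type) (_ : Group A) (_ : Finite A),
          (∀ (p : ℕ) [Fact p.Prime] (P : Sylow p A), IsMulCommutative (P : Subgroup A)) ∧
          ∀ (G : Type u) [Group G], Satisfies W G ↔ Satisfies (laws A) G) := by
  constructor
  · intro h
    have hRF : HasRF W := by
      intro G _ hG
      let e : ULift.{u} G ≃* G := MulEquiv.ulift
      have h1 := h (ULift.{u} G) (rf_of_injective hG e.toMonoidHom e.injective)
      refine rf_of_injective h1 (QuotientGroup.map (verbal W G) (verbal W (ULift.{u} G))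
        e.symm.toMonoidHom fun g hg => map_mem_verbal W _ hg) ?_
      rw [injective_iff_map_eq_one]
      intro x hx
      obtain ⟨g, rfl⟩ := QuotientGroup.mk'_surjective _ x
      have h2 := map_mem_verbal W e.toMonoidHom ((QuotientGroup.eq_one_iff _).1 hx)
      exact (QuotientGroup.eq_one_iff _).2 h2
    by_cases hW : ∀ w ∈ W, w = 1
    · left
      intro G _ w hw f
      rw [hW w hw, map_one]
    · right
      push Not at hW
      obtain ⟨w₀, hw, hw1⟩ := hW
      obtain ⟨A, _, _, hS, hA, hl⟩ := exists_generator hRF (redRF_of_hasRF hRF hw hw1)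
      refine ⟨A, _, ‹_›, hS, fun G _ => ⟨fun hG w hwA f => ?_, fun hG w hwW f => ?_⟩⟩
      · have := map_mem_verbal W (FreeGroup.lift f) (hl hwA)
        rwa [(satisfies_iff_verbal_eq_bot G).1 hG, Subgroup.mem_bot] at this
      · exact hG w (hA w hwW) f
  · rintro (h | ⟨A, _, _, hS, hA⟩) G _ hG
    · have hb : Function.Bijective (QuotientGroup.mk' (verbal W G)) := by
        refine ⟨?_, QuotientGroup.mk'_surjective _⟩
        rw [← MonoidHom.ker_eq_bot_iff, QuotientGroup.ker_mk']
        exact (satisfies_iff_verbal_eq_bot G).1 (h G)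
      exact rf_of_injective hG (MulEquiv.ofBijective _ hb).symm.toMonoidHom
        (MulEquiv.ofBijective _ hb).symm.injective
    · exact rf_of_satisfies_laws (agroup_of_sylow hS) ((hA _).1 (satisfies_quotient_verbal G))

end Pool.Agent.Results.MP_9fd99d_al.Classification
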