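import Pool.Agent.Lib.MP_9fd99d_al.ResNil

/-!
MP_9fd99d_al, the question for residual nilpotence: the verbal quotient of every residually
nilpotent group is residually nilpotent exactly for the variety of all groups and for the
nilpotent varieties.
-/

namespace Pool.Agent.Results.MP_9fd99d_al.ResiduallyNilpotent

open Pool.Agent.Lib.MP_9fd99d_al

theorem result (W : Set (FreeGroup ℕ)) :
    (∀ (G : Type) [Group G], Residually (fun Q _ => Group.IsNilpotent Q) G →
        Residually (fun Q _ => Group.IsNilpotent Q) (G ⧸ verbal W G)) ↔
      ((∀ (G : Type) [Group G], Satisfies W G) ∨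
        ∃ c : ℕ, ∀ (G : Type) [Group G], Satisfies W G →
          (⊤ : Subgroup G).lowerCentralSeries c = ⊥) :=
  keeps_nilpotent_iff

end Pool.Agent.Results.MP_9fd99d_al.ResiduallyNilpotent
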